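import Pool.Agent.H332.HT.Defs

/-! REFL: the reflected body (helper643 for helper332). -/

set_option autoImplicit false

namespace Pool.Agent.H643.HT

open Pool.Agent.H332.HT

/-- the reflection -/
noncomputable def fl : V3 ≃ₜ V3 := (Homeomorph.refl V2).prodCongr (Homeomorph.neg ℝ)

theorem fl_apply (x : V3) : fl x = (x.1, -x.2) := rfl

theorem fl_fl (x : V3) : fl (fl x) = x := by
  rw [fl_apply, fl_apply]
  simp

theorem refl_eq (K : Set V3) : refl K = fl ⁻¹' K := rfl

theorem int_refl (K : Set V3) : interior (refl K) = fl ⁻¹' interior K := by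
  rw [refl_eq, fl.preimage_interior]

theorem refl_thm : S_refl := by
  intro K hK
  refine ⟨⟨?_, ?_, ?_, ?_, ?_, ?_, ?_⟩, ?_, ?_⟩
  · rw [refl_eq]
    exact fl.isCompact_preimage.2 hK.cpt
  · exact hK.cvx.linear_preimage ((LinearMap.fst ℝ V2 ℝ).prod (-(LinearMap.snd ℝ V2 ℝ)))
  · intro p z h
    exact hK.symm p (-z) h
  · intro p z h
    have := hK.ht p (-z) h
    rwa [abs_neg] at this
  · exact hK.S
  · show (((0 : V2), -(-1 : ℝ)) : V3) ∈ K
    rw [neg_neg]
    exact hK.N
  · rw [int_refl]
    show fl 0 ∈ interior K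
    have : fl 0 = 0 := by
      rw [fl_apply]
      simp
    rw [this]
    exact hK.int0
  · ext p
    constructor
    · rintro ⟨x, hx, rfl⟩
      exact ⟨fl x, hx, rfl⟩
    · rintro ⟨x, hx, rfl⟩
      refine ⟨fl x, ?_, rfl⟩
      show fl (fl x) ∈ K
      rw [fl_fl]
      exact hx
  · rintro ⟨L, hL⟩
    refine ⟨fun i => fl (L i), fun x hx hxi => ?_⟩
    obtain ⟨i, t, ht, h⟩ := hL (fl x) (by
      show fl (fl x) ∈ K
      rw [fl_fl]
      exact hx) (by
      rw [int_refl]
      show ¬ fl (fl x) ∈ interior K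
      rw [fl_fl]
      exact hxi)
    refine ⟨i, t, ht, ?_⟩
    rw [int_refl] at h
    have e : fl (fl x + t • L i) = x + t • fl (L i) := by
      simp only [fl_apply]
      ext
      · simp
      · simp
      · simp
        ring
    rw [← e]
    exact h

end Pool.Agent.H643.HT
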